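import Pool.Agent.Lib.MP_8e135c_al.Breadth
import Pool.Agent.Lib.MP_8e135c_al.Struct

/-!
# Nilpotency of the radical bounds the m-dimension of sets of pp conditions of bounded width
-/

set_option autoImplicit false

universe u w x

namespace Pool.Agent.Results.MP_8e135c_al.BoundedWidth

open Pool.Agent.Lib.MP_8e135c_al

/-- Let `A` be an artin algebra with `rad ^ (ω α + n) = 0`, let `ψ` be a pp condition and `C` a set of
pp conditions in `r` variables, ordered by implication. If every member of `C` between `a` and `b` is
the sum of `ψ` and at most `k` pp conditions freely realised in indecomposable modules, then the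
m-dimension of the interval `[a, b]` of `C` is less than `(α + 1) k`. -/
theorem result (K : Type x) (A : Type u) [CommRing K] [IsArtinianRing K] [Ring A] [Algebra K A]
    [Module.Finite K A] (α : Ordinal.{w}) (n : ℕ)
    (hz : ∀ (M N : FGMod A) (f : Hom M N),
      f ∈ (radPow A (Ordinal.omega0 * α + n)).carrier M N → f = 0) (r k : ℕ) (ψ : PPCond A r)
    (C : Set (PPCond A r)) (a b : C) (hab : a ≤ b)
    (hW : ∀ c : C, a ≤ c → c ≤ b → PPWidth ψ k c.1) : MDimLT ((α + 1) * k) a b := by
  have : IsArtinianRing A := IsArtinianRing.of_finite K A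
  exact mDimLT_of_width (F := fun c : C => c.1.1) (homDCC_of_artinAlgebra K) (fun _ _ => Iff.rfl) α n
    hz k ψ.1 a b hab hW

end Pool.Agent.Results.MP_8e135c_al.BoundedWidth
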