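import Pool.Agent.Lib.MP_8e135c_al.Sharp4

/-!
# Intervals of finite breadth: the m-dimension is at most `α` if `rad ^ (ω α + m) = 0`
-/

set_option autoImplicit false

universe u w x

namespace Pool.Agent.Results.MP_8e135c_al.BreadthBound

open Pool.Agent.Lib.MP_8e135c_al

/-- Let `A` be an artin algebra with `rad ^ (ω α + m) = 0` for finitely generated left modules, where
`α` is an ordinal and `m` is finite, and let `ψ ≤ χ` be pp conditions such that the interval `[ψ, χ]`
of the lattice of pp conditions has breadth at most `k`: among any `k + 1` of its members one is below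
the sum of the others. Then `[ψ, χ]` has length at most `k (m + 1)` modulo intervals of m-dimension
`< α`; in particular its m-dimension is at most `α` (`MLengthLE.mDimLT`). -/
theorem result (K : Type x) (A : Type u) [CommRing K] [IsArtinianRing K] [Ring A] [Algebra K A]
    [Module.Finite K A] (α : Ordinal.{w}) (m : ℕ)
    (hz : ∀ (M N : FGMod A) (f : Hom M N),
      f ∈ (radPow A (Ordinal.omega0 * α + m)).carrier M N → f = 0) (r k : ℕ) (ψ χ : PPCond A r)
    (hψχ : ψ ≤ χ) (hbr : BreadthLE k ψ χ) : MLengthLE α (k * (m + 1)) ψ χ :=
  mLengthLE_of_breadth K α m hz hψχ hbr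

end Pool.Agent.Results.MP_8e135c_al.BreadthBound
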