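import Pool.Agent.Lib.MP_8e135c_alW.Main
import Pool.Agent.Lib.MP_8e135c_alW.Lift

/-!
# Corners of rings with vanishing transfinite radical
-/

set_option autoImplicit false

namespace Pool.Agent.Results.MP_8e135c_al.CornerRings

open CategoryTheory Pool.Agent.Lib.MP_8e135c_alW

universe u v w

/-- Let `R` be a right artinian ring for which the transfinite radical of the category of finitely
generated right modules is zero.  Let `e` be an idempotent of `R`, let `res` be a surjective ring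
homomorphism from `S = e R e` onto a field `k` over which every polynomial `T ^ 2 + α T + β` has a
root, and assume that every element of `S` is congruent to a central element modulo `m = ker res`
(this holds if `S` is commutative, and if `S` is an algebra over a field `K` and `k = K`).  Then one of
the following holds:
* `m` is generated by one element modulo `m ^ 2`;
* `m` is generated by two elements modulo `m ^ 2`, and `m ^ 2 = m ^ 3`;
* `m` is generated by two elements modulo `m ^ 2`, `m ^ 2` by one element modulo `m ^ 3`,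
  `m ^ 3 = m ^ 4`, and every `z` in `m` with `z m` and `m z` in `m ^ 3` lies in `m ^ 2`;
* `m` is generated modulo `m ^ 2` by two elements `x`, `y` with `y x` and `x ^ 2 - y ^ 2` in `m ^ 3` and
  `x y - y x` not in `m ^ 3`, and `x ^ 2`, `x y` are linearly independent modulo `m ^ 3`.
The last case does not occur if `S` is commutative. -/
theorem result {R : Type u} [Ring R] [IsArtinianRing Rᵐᵒᵖ]
    (hR : ∀ (A B : FGModuleCat.{u} Rᵐᵒᵖ) (f : A ⟶ B), f ∈ radInf.{u, u + 1, w} A B → f = 0)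
    {e : R} (he : IsIdempotentElem e) {k : Type v} [Field k]
    (hk : ∀ α β : k, ∃ τ : k, τ * τ + α * τ + β = 0)
    (res : he.Corner →+* k) (hres : Function.Surjective res)
    (hc : ∀ s : he.Corner, ∃ c ∈ Subring.center he.Corner, res (s - c) = 0)
    (m : Ideal he.Corner) (hm : m = RingHom.ker res) :
    (∃ x ∈ m, m ≤ Ideal.span {x} ⊔ m ^ 2) ∨
    (∃ x ∈ m, ∃ y ∈ m, m ≤ Ideal.span {x, y} ⊔ m ^ 2 ∧ m ^ 2 = m ^ 3) ∨
    (∃ x ∈ m, ∃ y ∈ m, ∃ s ∈ m ^ 2, m ≤ Ideal.span {x, y} ⊔ m ^ 2 ∧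
      m ^ 2 ≤ Ideal.span {s} ⊔ m ^ 3 ∧ m ^ 3 = m ^ 4 ∧
      ∀ z ∈ m, (∀ w ∈ m, z * w ∈ m ^ 3 ∧ w * z ∈ m ^ 3) → z ∈ m ^ 2) ∨
    (∃ x ∈ m, ∃ y ∈ m, m ≤ Ideal.span {x, y} ⊔ m ^ 2 ∧
      y * x ∈ m ^ 3 ∧ x * x - y * y ∈ m ^ 3 ∧ x * y - y * x ∉ m ^ 3 ∧
      ∀ r t, r * (x * x) + t * (x * y) ∈ m ^ 3 → r ∈ m ∧ t ∈ m) := by
  subst hm
  refine Sys.classification hres hc hk fun hno => ?_
  obtain ⟨A, B, f, hf, hf0⟩ := Sys.exists_radInf_of_corner he hno
  exact hf0 (hR A B f hf)

end Pool.Agent.Results.MP_8e135c_al.CornerRings
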