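import Pool.Agent.Lib.MP_8e135c_al.Struct

/-!
# Artin algebras with `rad ^ ∞ = 0`: intervals of infinite m-dimension contain towers of unbounded
width
-/

set_option autoImplicit false

universe u v w

namespace Pool.Agent.Results.MP_8e135c_al.WidthTower

open Pool.Agent.Lib.MP_8e135c_al

/-- Let `A` be an artin algebra whose transfinite radical `rad ^ ∞` (of the category of finitely
generated left modules) is zero, and let `[ψ, φ]` be an interval of pp conditions in `n` variables
whose m-dimension is not an ordinal. Then there are nested intervals `[a i, b i]` in `[ψ, φ]`, again of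
infinite m-dimension, such that a pp condition between `a i` and `b i` is never the sum of `ψ` and
fewer than `i` pp conditions freely realised in indecomposable modules; and pp conditions
`θ i ≤ a (i + 1)` freely realised in indecomposable modules none of which is below the sum of `ψ` and
finitely many others. -/
theorem result {K : Type v} [CommRing K] [IsArtinianRing K] {A : Type u} [Ring A] [Algebra K A]
    [Module.Finite K A] (hrad : TransRadZero.{u, w} A) {n : ℕ} (ψ φ : PPCond A n)
    (h : MDimInfinite.{u + 1, u} ψ φ) :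
    ∃ a b θ : ℕ → PPCond A n,
      (∀ i, ψ ≤ a i ∧ a i ≤ a (i + 1) ∧ b (i + 1) ≤ b i ∧ b i ≤ φ ∧
        MDimInfinite.{u + 1, u} (a i) (b i)) ∧
      (∀ i, θ i ≤ a (i + 1) ∧ ∃ (N : FGMod A) (y : Fin n → N), Indec N ∧ (θ i).1 = genF N y) ∧
      (∀ i c, a i ≤ c → c ≤ b i → ∀ k, PPWidth ψ k c → i ≤ k) ∧
      ∀ (m : ℕ) (J : Finset ℕ), m ∉ J → ∃ ξ : PPCond A n, ψ ≤ ξ ∧ (∀ j ∈ J, θ j ≤ ξ) ∧ ¬ θ m ≤ ξ := by
  have : IsArtinianRing A := IsArtinianRing.of_finite K A
  exact exists_pp_tower (homDCC_of_artinAlgebra K) hrad ψ φ h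

end Pool.Agent.Results.MP_8e135c_al.WidthTower
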